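import Pool.Agent.H341Q.TUCount
import Pool.Agent.H341Q.TUTower
import Pool.Agent.H341Q.TUFub

open Set Pool.Agent.H341Q.TU

namespace Pool.Agent.Results.MP_8fdcc7_lc.FubiniProducts

/-- `U` is a nonprincipal ultrafilter on `ℕ` that is not a p-point and satisfies
`(U, ⊇*) <_T (U, ⊇)`. -/
def Example (U : Ultrafilter ℕ) : Prop :=
  NonPrin U ∧ ¬ IsPPt U ∧ TukLE (AlmOrd U) (InclOrd U) ∧ ¬ TukLE (InclOrd U) (AlmOrd U)

theorem example_fub {V W : Ultrafilter ℕ} (hV : NonPrin V) (hW : NonPrin W) (hWp : IsPPt W)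
    (h : ¬ TukLE (InclOrd W) (InclOrd V)) : Example (fub V W) :=
  ⟨fub_nonPrin hW, fub_not_isPPt hV hW, almOrd_le_inclOrd _, fun h' => h (tukLE_of_fub hWp h')⟩

theorem exists_of_many (h : Cardinal.continuum.{0} <
    Cardinal.mk {W : Ultrafilter ℕ // NonPrin W ∧ IsPPt W}) : ∃ U, Example U := by
  by_contra hcon
  have hne : Nonempty {W : Ultrafilter ℕ // NonPrin W ∧ IsPPt W} := by
    rw [← Cardinal.mk_ne_zero_iff]
    exact (lt_of_le_of_lt zero_le h).ne'
  obtain ⟨V, hV, hVp⟩ := hne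
  have h1 : ∀ W : {W : Ultrafilter ℕ // NonPrin W ∧ IsPPt W},
      ∃ R, ∀ B, B ∈ W.1 ↔ B ∈ Coded V R := by
    rintro ⟨W, hW, hWp⟩
    apply coded_of_tukLE hVp
    by_contra h2
    exact hcon ⟨_, example_fub hV hW hWp h2⟩
  choose R hR using h1
  have hinj : Function.Injective R := by
    intro W W' hWW
    apply Subtype.ext
    apply Ultrafilter.coe_injective
    ext B
    rw [Ultrafilter.mem_coe, Ultrafilter.mem_coe, hR W B, hR W' B, hWW]
  have h2 := Cardinal.mk_le_of_injective hinj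
  have h3 : Cardinal.mk (Set (ℕ × Finset ℕ × ℕ)) = Cardinal.continuum.{0} := by
    rw [Cardinal.mk_set, Cardinal.mk_eq_aleph0, Cardinal.two_power_aleph0]
  rw [h3] at h2
  exact absurd h (not_lt.2 h2)

theorem exists_of_pEqC (hp : PEqC) : ∃ U, Example U := by
  obtain ⟨V, hV, hVp, _⟩ := exists_ppoint hp (fun _ => ∅)
  let e : Set ℕ ≃ Set (ℕ × Finset ℕ × ℕ) :=
    Equiv.Set.congr (Denumerable.eqv (ℕ × Finset ℕ × ℕ)).symm
  obtain ⟨W, hW, hWp, hWc⟩ := exists_ppoint hp (fun D => Coded V (e D))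
  refine ⟨_, example_fub hV hW hWp ?_⟩
  intro h
  obtain ⟨R, hR⟩ := coded_of_tukLE hVp h
  apply hWc (e.symm R)
  intro B
  rw [Equiv.apply_symm_apply]
  exact hR B

/-- If `W` is a p-point and `V` an ultrafilter with `(W, ⊇)` not Tukey below `(V, ⊇)`, then
`V · W` is not a p-point and `(V · W, ⊇*) <_T (V · W, ⊇)`.  Such a pair, hence a non-p-point `U`
with `(U, ⊇*) <_T (U, ⊇)`, exists if there are more than continuum many p-points, if `𝔭 = 𝔠`,
and in particular under the continuum hypothesis. -/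
theorem result :
    (∀ V W : Ultrafilter ℕ, NonPrin V → NonPrin W → IsPPt W →
      ¬ TukLE (InclOrd W) (InclOrd V) → Example (fub V W)) ∧
    (Cardinal.continuum.{0} < Cardinal.mk {W : Ultrafilter ℕ // NonPrin W ∧ IsPPt W} →
      ∃ U, Example U) ∧
    (PEqC → ∃ U, Example U) ∧
    (Cardinal.continuum.{0} = Cardinal.aleph 1 → ∃ U, Example U) :=
  ⟨fun _ _ hV hW hWp h => example_fub hV hW hWp h, exists_of_many, exists_of_pEqC,
    fun h => exists_of_pEqC (pEqC_of_ch h)⟩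

end Pool.Agent.Results.MP_8fdcc7_lc.FubiniProducts
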